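import Mathlib
import Pool.Agent.Helper27_UBT.Stmts

/-!
A nonsplit place of an extension `L / K` of prime degree `n` persists in an extension `K₁ / K` of
degree prime to `n`: some place of `K₁` above it is nonsplit in the compositum.
-/

open Polynomial NumberField

namespace H72UBO

open UBT

section tower

variable (K M : Type) [Field K] [NumberField K] [Field M] [NumberField M] [Algebra K M]

/-- the local degree -/
noncomputable def ld (P : Ideal (𝓞 M)) : ℕ := P.ramificationIdx (𝓞 K) * P.inertiaDeg (𝓞 K)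

theorem finrank_ro : Module.finrank (𝓞 K) (𝓞 M) = Module.finrank K M := by
  exact (IsFractionRing.finrank_eq (𝓞 K) K (𝓞 M) M).symm

instance flat_ro : Module.Flat (𝓞 K) (𝓞 M) := inferInstance

instance fin_ro : Module.Finite (𝓞 K) (𝓞 M) := inferInstance

theorem ld_pos (P : Ideal (𝓞 M)) [P.IsPrime] : 0 < ld K M P :=
  Nat.mul_pos (P.ramificationIdx_pos (𝓞 K)) (P.inertiaDeg_pos (𝓞 K))

theorem sum_ld (v : Ideal (𝓞 K)) [v.IsPrime] [Fintype (v.primesOver (𝓞 M))] :
    ∑ q : v.primesOver (𝓞 M), ld K M q.1 = Module.finrank K M := by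
  rw [← finrank_ro K M]
  exact Ideal.sum_ramification_inertia_eq_finrank v (𝓞 M)

end tower

theorem ld_tower (K L M : Type) [Field K] [NumberField K] [Field L] [NumberField L]
    [Field M] [NumberField M] [Algebra K L] [Algebra K M] [Algebra L M] [IsScalarTower K L M]
    (q : Ideal (𝓞 L)) (r : Ideal (𝓞 M)) [r.LiesOver q] : ld K M r = ld K L q * ld L M r := by
  unfold ld
  rw [Ideal.ramificationIdx_tower (R := 𝓞 K) q r, Ideal.inertiaDeg_tower (R := 𝓞 K) q r]
  ring

/-- a place of degree prime to `n` above `v` -/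
theorem exists_coprime (K M : Type) [Field K] [NumberField K] [Field M] [NumberField M]
    [Algebra K M] (n : ℕ) (h : ¬ n ∣ Module.finrank K M) (v : Ideal (𝓞 K)) [v.IsPrime]
    (hv : v ≠ ⊥) :
    ∃ P : Ideal (𝓞 M), P.IsPrime ∧ P.LiesOver v ∧ ¬ n ∣ ld K M P := by
  classical
  have hfin : Finite (v.primesOver (𝓞 M)) := by
    have : v.IsMaximal := Ideal.IsPrime.isMaximal ‹_› hv
    exact (IsDedekindDomain.primesOver_finite v (𝓞 M)).to_subtype
  let _ : Fintype (v.primesOver (𝓞 M)) := Fintype.ofFinite _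
  by_contra hc
  push Not at hc
  apply h
  rw [← sum_ld K M v]
  exact Finset.dvd_sum fun q _ => hc q.1 q.2.1 q.2.2

theorem nonsplit_descent (K L K₁ L₁ : Type) [Field K] [NumberField K] [Field L] [NumberField L]
    [Field K₁] [NumberField K₁] [Field L₁] [NumberField L₁] [Algebra K L] [Algebra K K₁]
    [Algebra K₁ L₁] [Algebra L L₁] [Algebra K L₁] [IsScalarTower K L L₁] [IsScalarTower K K₁ L₁]
    (n : ℕ) (hn : n.Prime) (hL : Module.finrank K L = n) (hK : ¬ n ∣ Module.finrank K K₁)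
    (hL₁ : Module.finrank K₁ L₁ = n) (v : Ideal (𝓞 K)) (hvp : v.IsPrime) (hv : v ≠ ⊥)
    (h : Nonsplit K L v) :
    ∃ v₁ : Ideal (𝓞 K₁), v₁.IsPrime ∧ v₁.LiesOver v ∧ Nonsplit K₁ L₁ v₁ := by
  classical
  obtain ⟨v₁, h1, h2, h3⟩ := exists_coprime K K₁ n hK v hv
  refine ⟨v₁, h1, h2, ?_⟩
  have hv₁ : v₁ ≠ ⊥ := by
    rintro rfl
    exact hv (by rw [Ideal.over_def (⊥ : Ideal (𝓞 K₁)) v]; exact Ideal.under_bot _ _)
  -- every prime of `L₁` above `v₁` has local degree divisible by `n`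
  have key : ∀ P : Ideal (𝓞 L₁), P.IsPrime → P.LiesOver v₁ → n ∣ ld K₁ L₁ P := by
    intro P hP hPv
    have hPover : P.LiesOver v := Ideal.LiesOver.trans P v₁ v
    set Q : Ideal (𝓞 L) := P.under (𝓞 L) with hQ
    have hQp : Q.IsPrime := Ideal.IsPrime.under _ P
    have hPQ : P.LiesOver Q := ⟨rfl⟩
    have hQv : Q.LiesOver v := Ideal.LiesOver.tower_bot P Q v
    have hlQ : ld K L Q = n := by
      have hfin : Finite (v.primesOver (𝓞 L)) := by
        have : v.IsMaximal := Ideal.IsPrime.isMaximal ‹_› hv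
        exact (IsDedekindDomain.primesOver_finite v (𝓞 L)).to_subtype
      let _ : Fintype (v.primesOver (𝓞 L)) := Fintype.ofFinite _
      have e := sum_ld K L v
      rw [hL] at e
      rw [← e]
      have huniq : ∀ q : v.primesOver (𝓞 L), q = ⟨Q, hQp, hQv⟩ := fun q =>
        Subtype.ext (h q.1 Q q.2.1 hQp q.2.2 hQv)
      have hu : (Finset.univ : Finset (v.primesOver (𝓞 L))) = {⟨Q, hQp, hQv⟩} := by
        ext q
        simp [huniq q]
      rw [hu, Finset.sum_singleton]
    have e1 := ld_tower K L L₁ Q P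
    have e2 := ld_tower K K₁ L₁ v₁ P
    have hd : n ∣ ld K K₁ v₁ * ld K₁ L₁ P := by
      rw [← e2, e1, hlQ]
      exact dvd_mul_right _ _
    exact (hn.dvd_mul.mp hd).resolve_left h3
  intro P Q hP hQ hPv hQv
  by_contra hne
  have hfin : Finite (v₁.primesOver (𝓞 L₁)) := by
    have : v₁.IsMaximal := Ideal.IsPrime.isMaximal ‹_› hv₁
    exact (IsDedekindDomain.primesOver_finite v₁ (𝓞 L₁)).to_subtype
  let _ : Fintype (v₁.primesOver (𝓞 L₁)) := Fintype.ofFinite _
  have e := sum_ld K₁ L₁ v₁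
  rw [hL₁] at e
  have hsub : ({⟨P, hP, hPv⟩, ⟨Q, hQ, hQv⟩} : Finset (v₁.primesOver (𝓞 L₁))) ⊆ Finset.univ :=
    Finset.subset_univ _
  have hle := Finset.sum_le_sum_of_subset (f := fun q : v₁.primesOver (𝓞 L₁) => ld K₁ L₁ q.1) hsub
  rw [e, Finset.sum_pair (by intro he; exact hne (congrArg Subtype.val he))] at hle
  have hp1 : n ≤ ld K₁ L₁ P := Nat.le_of_dvd (ld_pos K₁ L₁ P) (key P hP hPv)
  have hp2 : n ≤ ld K₁ L₁ Q := Nat.le_of_dvd (ld_pos K₁ L₁ Q) (key Q hQ hQv)
  have := hn.pos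
  simp only at hle
  omega


theorem natDegree_minpoly_eq {K L : Type} [Field K] [Field L] [Algebra K L]
    [FiniteDimensional K L] (n : ℕ) (hn : n.Prime) (hL : Module.finrank K L = n) (θ : L)
    (hθ : θ ∉ (algebraMap K L).range) :
    (minpoly K θ).natDegree = n ∧ IntermediateField.adjoin K {θ} = ⊤ := by
  have hint : IsIntegral K θ := Algebra.IsIntegral.isIntegral θ
  have e : Module.finrank K (IntermediateField.adjoin K {θ}) = (minpoly K θ).natDegree :=
    IntermediateField.adjoin.finrank hint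
  have hd : (minpoly K θ).natDegree ∣ n := minpoly.degree_dvd hint |>.trans hL.dvd
  have h1 : (minpoly K θ).natDegree ≠ 1 := by
    intro h
    exact hθ (minpoly.natDegree_eq_one_iff.mp h)
  have h2 : (minpoly K θ).natDegree = n := (hn.eq_one_or_self_of_dvd _ hd).resolve_left h1
  refine ⟨h2, ?_⟩
  apply IntermediateField.eq_of_le_of_finrank_eq le_top
  rw [e, h2, IntermediateField.finrank_top', hL]

/-- the embedding of `L = K(θ)` sending `θ` to a root of its minimal polynomial -/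
theorem exists_hom {K L M : Type} [Field K] [Field L] [Algebra K L] [Field M] [Algebra K M]
    [FiniteDimensional K L] (n : ℕ) (hn : n.Prime) (hL : Module.finrank K L = n) (θ : L)
    (hθ : θ ∉ (algebraMap K L).range) (α : M) (hα : aeval α (minpoly K θ) = 0) :
    ∃ ψ : L →ₐ[K] M, ψ θ = α := by
  have hint : IsIntegral K θ := Algebra.IsIntegral.isIntegral θ
  have htop := (natDegree_minpoly_eq n hn hL θ hθ).2
  let e1 : AdjoinRoot (minpoly K θ) ≃ₐ[K] IntermediateField.adjoin K {θ} :=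
    IntermediateField.adjoinRootEquivAdjoin K hint
  let e2 : IntermediateField.adjoin K {θ} ≃ₐ[K] (⊤ : IntermediateField K L) :=
    IntermediateField.equivOfEq htop
  let e3 : (⊤ : IntermediateField K L) ≃ₐ[K] L := IntermediateField.topEquiv
  let φ : AdjoinRoot (minpoly K θ) →ₐ[K] M :=
    AdjoinRoot.liftAlgHom (minpoly K θ) (Algebra.ofId K M) α hα
  refine ⟨φ.comp ((e1.trans (e2.trans e3)).symm : L →ₐ[K] AdjoinRoot (minpoly K θ)), ?_⟩
  have h3 : (e1.trans (e2.trans e3)) (AdjoinRoot.root (minpoly K θ)) = θ := by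
    simp [e1, e2, e3, IntermediateField.adjoinRootEquivAdjoin_apply_root]
  have h4 : (e1.trans (e2.trans e3)).symm θ = AdjoinRoot.root (minpoly K θ) := by
    rw [AlgEquiv.symm_apply_eq, h3]
  show φ ((e1.trans (e2.trans e3)).symm θ) = α
  rw [h4]
  exact AdjoinRoot.liftAlgHom_root (minpoly K θ) (Algebra.ofId K M) α hα

theorem exists_ext (K L K₁ : Type) [Field K] [NumberField K] [Field L] [NumberField L]
    [Field K₁] [NumberField K₁] [Algebra K L] [Algebra K K₁]
    (n : ℕ) (hn : n.Prime) (hL : Module.finrank K L = n) (hK : ¬ n ∣ Module.finrank K K₁)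
    (θ : L) (hθ : θ ∉ (algebraMap K L).range) :
    ∃ (L₁ : Type) (_ : Field L₁) (_ : NumberField L₁) (_ : Algebra K₁ L₁) (_ : Algebra L L₁)
      (_ : Algebra K L₁) (_ : IsScalarTower K L L₁) (_ : IsScalarTower K K₁ L₁),
      Module.finrank K₁ L₁ = n ∧
      minpoly K₁ (algebraMap L L₁ θ) = (minpoly K θ).map (algebraMap K K₁) := by
  have hint : IsIntegral K θ := Algebra.IsIntegral.isIntegral θ
  have hdeg := (natDegree_minpoly_eq n hn hL θ hθ).1
  set f₁ := (minpoly K θ).map (algebraMap K K₁) with hf₁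
  have hmon : f₁.Monic := (minpoly.monic hint).map _
  have hnd : f₁.natDegree = n := by rw [hf₁, natDegree_map, hdeg]
  have hnu : ¬ IsUnit f₁ := by
    intro hu
    have := natDegree_eq_zero_of_isUnit hu
    have := hn.pos
    omega
  obtain ⟨q, hqm, hqi, hqd⟩ := Polynomial.exists_monic_irreducible_factor f₁ hnu
  have : Fact (Irreducible q) := ⟨hqi⟩
  have hq0 : q ≠ 0 := hqi.ne_zero
  have hfd : Module.Finite K₁ (AdjoinRoot q) := (AdjoinRoot.powerBasis hq0).finite
  have hnf : NumberField (AdjoinRoot q) := NumberField.of_module_finite K₁ (AdjoinRoot q)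
  have hroot : aeval (AdjoinRoot.root q) f₁ = 0 := by
    obtain ⟨c, hc⟩ := hqd
    rw [hc, map_mul]
    have : aeval (AdjoinRoot.root q) q = 0 := by
      rw [AdjoinRoot.aeval_eq, AdjoinRoot.mk_self]
    rw [this, zero_mul]
  have hroot' : aeval (AdjoinRoot.root q) (minpoly K θ) = 0 := by
    rw [hf₁, aeval_map_algebraMap] at hroot
    exact hroot
  obtain ⟨ψ, hψ⟩ := exists_hom n hn hL θ hθ (AdjoinRoot.root q) hroot'
  let _ : Algebra L (AdjoinRoot q) := ψ.toRingHom.toAlgebra
  have hst : IsScalarTower K L (AdjoinRoot q) := IsScalarTower.of_algebraMap_eq fun x => by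
    exact (ψ.commutes x).symm
  have hfr : Module.finrank K₁ (AdjoinRoot q) = q.natDegree := by
    rw [(AdjoinRoot.powerBasis hq0).finrank, AdjoinRoot.powerBasis_dim]
  have hqn : q.natDegree = n := by
    have e1 := Module.finrank_mul_finrank K L (AdjoinRoot q)
    have e2 := Module.finrank_mul_finrank K K₁ (AdjoinRoot q)
    have hd : n ∣ Module.finrank K K₁ * Module.finrank K₁ (AdjoinRoot q) := by
      rw [e2, ← e1, hL]
      exact dvd_mul_right _ _
    have hd' : n ∣ q.natDegree := by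
      rw [← hfr]
      exact (hn.dvd_mul.mp hd).resolve_left hK
    have h1 : q.natDegree ≤ n := hnd ▸ natDegree_le_of_dvd hqd hmon.ne_zero
    exact le_antisymm h1 (Nat.le_of_dvd hqi.natDegree_pos hd')
  have hqf : q = f₁ := by
    apply eq_of_monic_of_associated hqm hmon
    obtain ⟨c, hc⟩ := hqd
    have hc0 : c ≠ 0 := by
      rintro rfl
      exact hmon.ne_zero (by rw [hc, mul_zero])
    have hcd : c.natDegree = 0 := by
      have := congrArg natDegree hc
      rw [natDegree_mul hq0 hc0, hnd, hqn] at this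
      omega
    have hcu : IsUnit c := by
      rw [isUnit_iff_degree_eq_zero, degree_eq_natDegree hc0, hcd]
      rfl
    exact ⟨hcu.unit, by rw [IsUnit.unit_spec, hc]⟩
  refine ⟨AdjoinRoot q, inferInstance, hnf, inferInstance, inferInstance, inferInstance, hst,
    inferInstance, by rw [hfr, hqn], ?_⟩
  have : algebraMap L (AdjoinRoot q) θ = AdjoinRoot.root q := hψ
  rw [this, AdjoinRoot.minpoly_root hq0, hqm.leadingCoeff, inv_one, C_1, mul_one, hqf]

theorem nsp (K L K₁ : Type) [Field K] [NumberField K] [Field L] [NumberField L]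
    [Field K₁] [NumberField K₁] [Algebra K L] [Algebra K K₁] (n : ℕ) (hn : n.Prime)
    (hL : Module.finrank K L = n) (hK : ¬ n ∣ Module.finrank K K₁) (v : Ideal (𝓞 K))
    (hvp : v.IsPrime) (hv : v ≠ ⊥) (h : Nonsplit K L v) (θ : L)
    (hθ : θ ∉ (algebraMap K L).range) :
    ∃ (L₁ : Type) (_ : Field L₁) (_ : NumberField L₁) (_ : Algebra K₁ L₁) (θ₁ : L₁)
      (v₁ : Ideal (𝓞 K₁)), Module.finrank K₁ L₁ = n ∧ θ₁ ∉ (algebraMap K₁ L₁).range ∧
      minpoly K₁ θ₁ = (minpoly K θ).map (algebraMap K K₁) ∧ v₁.IsPrime ∧ v₁.LiesOver v ∧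
      Nonsplit K₁ L₁ v₁ := by
  obtain ⟨L₁, i1, i2, i3, i4, i5, i6, i7, hfr, hmin⟩ := exists_ext K L K₁ n hn hL hK θ hθ
  obtain ⟨v₁, h1, h2, h3⟩ := nonsplit_descent K L K₁ L₁ n hn hL hK hfr v hvp hv h
  refine ⟨L₁, i1, i2, i3, algebraMap L L₁ θ, v₁, hfr, ?_, hmin, h1, h2, h3⟩
  intro hr
  have h4 := minpoly.natDegree_eq_one_iff.mpr hr
  rw [hmin, natDegree_map, (natDegree_minpoly_eq n hn hL θ hθ).1] at h4
  exact hn.one_lt.ne' h4

end H72UBO
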