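import Mathlib
import Pool.Agent.Helper23_TS.StmtsG
import Pool.Agent.Helper27_UBT.CH3
import Pool.Agent.Helper9_UBT.Cheb
import Pool.Agent.Helper51_UBT.Her
import Pool.Agent.Helper72_UBO.Nsp

/-!
The module EX of table `ts`, and the module RF: a root field of bounded discriminant, all `r`.
-/

open Polynomial NumberField IsDedekindDomain

namespace H72UBO

open H12UBI H58UB UBT Pool.Agent.TS

theorem ex : ExStmt := by
  intro K L K₁ _ _ _ _ _ _ _ _ n hn hL hK v hvp hv h θ hθ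
  exact nsp K L K₁ n hn hL hK v hvp hv h θ hθ

/-- the bound for a fixed root field -/
theorem fixedField (gl : GlStmt) (K L : Type) [Field K] [NumberField K]
    [Field L] [NumberField L] [Algebra K L] (g D : ℕ) (hn : (g + 1).Prime)
    (hfin : Module.finrank K L = g + 1) :
    ∃ B : ℕ, ∀ θ : L, θ ∉ (algebraMap K L).range →
      ∀ (K₁ : Type) [Field K₁] [NumberField K₁] [Algebra K K₁], Module.finrank K K₁ ≤ D →
      ¬ (g + 1) ∣ Module.finrank K K₁ →
      ∀ C : Curve g K₁, C.h = (minpoly K θ).map (algebraMap K K₁) → orderOf C.infty ≤ B := by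
  have hcheb : ChebStmt := H9.cheb ch3
  obtain ⟨p, hp, -, v, hv, hpv, hns⟩ := hcheb K L (by rw [hfin]; exact hn) 2
  refine ⟨bg g p (Module.finrank ℚ K * D), ?_⟩
  intro θ hθ K₁ _ _ _ hD hdvd C hC
  have hv0 : v ≠ ⊥ := by
    rintro rfl
    rw [Ideal.mem_bot, Nat.cast_eq_zero] at hpv
    exact hp.ne_zero hpv
  obtain ⟨L₁, _, _, _, θ₁, v₁, hfr, hθ₁, hmin, h1, h2, h3⟩ :=
    ex K L K₁ (g + 1) hn hfin hdvd v hv hv0 hns θ hθ
  have hpv₁ : ((p : ℕ) : 𝓞 K₁) ∈ v₁ := by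
    have e1 : ((p : ℕ) : 𝓞 K) ∈ v₁.under (𝓞 K) := by rw [← h2.over]; exact hpv
    have e2 : algebraMap (𝓞 K) (𝓞 K₁) ((p : ℕ) : 𝓞 K) ∈ v₁ := e1
    rwa [map_natCast] at e2
  have hd : Module.finrank ℚ K₁ ≤ Module.finrank ℚ K * D := by
    have e3 : Module.finrank ℚ K₁ = Module.finrank ℚ K * Module.finrank K K₁ :=
      (Module.finrank_mul_finrank ℚ K K₁).symm
    rw [e3]
    exact Nat.mul_le_mul_left _ hD
  exact gl K₁ L₁ g _ p hn hfr hd hp v₁ h1 hpv₁ h3 θ₁ hθ₁ C (by rw [hC, hmin])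

theorem rf (gl : GlStmt) : RfStmt := by
  classical
  intro K _ _ g D Δ hn
  obtain ⟨S, hSfin, hS⟩ := Pool.Agent.UBT51.her K Δ
  have hB : ∀ F : IntermediateField K (AlgebraicClosure K), F ∈ S → ∃ B : ℕ,
      Module.finrank K F = g + 1 →
      ∀ (L : Type) [Field L] [NumberField L] [Algebra K L], Nonempty (L ≃ₐ[K] F) →
      ∀ θ : L, θ ∉ (algebraMap K L).range →
      ∀ (K₁ : Type) [Field K₁] [NumberField K₁] [Algebra K K₁], Module.finrank K K₁ ≤ D →
      ¬ (g + 1) ∣ Module.finrank K K₁ →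
      ∀ C : Curve g K₁, C.h = (minpoly K θ).map (algebraMap K K₁) → orderOf C.infty ≤ B := by
    intro F hF
    have _ : FiniteDimensional K F := hSfin F hF
    have _ : NumberField F := NumberField.of_module_finite K F
    by_cases hfin : Module.finrank K F = g + 1
    · obtain ⟨B, hB⟩ := fixedField gl K F g D hn hfin
      refine ⟨B, fun _ L _ _ _ ⟨φ⟩ θ hθ K₁ _ _ _ hD hd C hC => ?_⟩
      refine hB (φ θ) ?_ K₁ hD hd C ?_
      · rintro ⟨x, hx⟩
        exact hθ ⟨x, φ.injective (by rw [← hx, AlgEquiv.commutes])⟩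
      · rw [hC, minpoly.algEquiv_eq φ θ]
    · exact ⟨0, fun h => absurd h hfin⟩
  choose B hB using hB
  refine ⟨∑ F ∈ S.attach, B F.1 F.2, ?_⟩
  intro L _ _ _ hfin hdisc θ hθ K₁ _ _ _ hD hd C hC
  obtain ⟨F, hF, ⟨φ⟩⟩ := hS L hdisc
  have h1 : Module.finrank K F = g + 1 := by rw [← hfin]; exact φ.toLinearEquiv.finrank_eq.symm
  refine (hB F hF h1 L ⟨φ⟩ θ hθ K₁ hD hd C hC).trans ?_
  exact Finset.single_le_sum (f := fun F : {x // x ∈ S} => B F.1 F.2) (fun _ _ => Nat.zero_le _)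
    (Finset.mem_attach S ⟨F, hF⟩)

end H72UBO
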